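import Pool.Agent.Helper35.HSF.StH

/-!
Project HSF, module PNA: injectivity for all times and the pinching.
-/

set_option autoImplicit false

namespace Helper8.HSF

open Helper35.HSF Helper35.MS Helper35.PI Helper35.PI2 Helper32.CL
open scoped ContDiff Manifold Topology ENNReal BigOperators
open MeasureTheory Set Filter

theorem gn_smul {n N : ℕ} {M : Type} [TopologicalSpace M] [ChartedSpace (EE n) M]
    (F : M → ℝ → EE N) (q : M) (t r : ℝ) (c : Fin n → ℝ) :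
    gn F q t (r • c) = r ^ 2 * gn F q t c := by
  unfold gn tv
  have : ∑ i, (r • c) i • dv1 (loc (n := n) F q t) (chartAt (EE n) q q) i
      = r • ∑ i, c i • dv1 (loc (n := n) F q t) (chartAt (EE n) q q) i := by
    rw [Finset.smul_sum]
    exact Finset.sum_congr rfl fun i _ => by rw [Pi.smul_apply, smul_eq_mul, mul_smul]
  rw [this, norm_smul, mul_pow, Real.norm_eq_abs, sq_abs]

theorem hn_smul {n N : ℕ} {M : Type} [TopologicalSpace M] [ChartedSpace (EE n) M]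
    (F ν : M → ℝ → EE N) (q : M) (t r : ℝ) (c : Fin n → ℝ) :
    hn F ν q t (r • c) = r ^ 2 * hn F ν q t c := by
  unfold hn An
  have : ∑ i, ∑ j, ((r • c) i * (r • c) j) • sff (loc (n := n) F q t) (chartAt (EE n) q q) i j
      = r ^ 2 • ∑ i, ∑ j, (c i * c j) • sff (loc (n := n) F q t) (chartAt (EE n) q q) i j := by
    rw [Finset.smul_sum]
    refine Finset.sum_congr rfl fun i _ => ?_
    rw [Finset.smul_sum]
    refine Finset.sum_congr rfl fun j _ => ?_
    rw [smul_smul]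
    congr 1
    simp only [Pi.smul_apply, smul_eq_mul]
    ring
  rw [this, real_inner_smul_left]

theorem sgN_le {n : ℕ} (hn : 1 ≤ n) (t : ℝ) : sgN n t ≤ t := by
  have hn0 : (0 : ℝ) < n := by exact_mod_cast hn
  unfold sgN
  rw [div_le_iff₀ (by positivity)]
  have := Real.add_one_le_exp (-(2 * n * t))
  linarith

theorem sgN_pos {n : ℕ} (hn : 1 ≤ n) {t : ℝ} (ht : 0 < t) : 0 < sgN n t := by
  have hn0 : (0 : ℝ) < n := by exact_mod_cast hn
  unfold sgN
  apply div_pos _ (by positivity)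
  have : Real.exp (-(2 * n * t)) < 1 := by
    rw [Real.exp_lt_one_iff]
    have : 0 < 2 * (n : ℝ) * t := by positivity
    linarith
  linarith

theorem rr_sgN {n : ℕ} (hn : 1 ≤ n) (t : ℝ) : rr n (sgN n t) = Real.exp (-(2 * n * t)) := by
  have hn0 : (0 : ℝ) < n := by exact_mod_cast hn
  unfold rr sgN
  field_simp
  ring

theorem tmN_sgN {n : ℕ} (hn : 1 ≤ n) (t : ℝ) : tmN n (sgN n t) = t := by
  have hn0 : (0 : ℝ) < n := by exact_mod_cast hn
  unfold tmN
  rw [rr_sgN hn, Real.log_exp]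
  field_simp

theorem tmN_mono {n : ℕ} (hn : 1 ≤ n) {a b : ℝ} (hab : a ≤ b) (hb : 0 < rr n b) :
    tmN n a ≤ tmN n b := by
  have hn0 : (0 : ℝ) < n := by exact_mod_cast hn
  have h1 : rr n b ≤ rr n a := by
    unfold rr
    have : 2 * (n : ℝ) * a ≤ 2 * n * b := mul_le_mul_of_nonneg_left hab (by positivity)
    linarith
  have h2 := Real.log_le_log hb h1
  unfold tmN
  have h3 : Real.log (rr n b) / (2 * n) ≤ Real.log (rr n a) / (2 * n) :=
    div_le_div_of_nonneg_right h2 (by positivity)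
  linarith

theorem ISN_ud {n : ℕ} (hn : 1 ≤ n) {TE : ℝ} (hT : 0 < TE) : UniqueDiffOn ℝ (ISN n TE) := by
  have hn0 : (0 : ℝ) < n := by exact_mod_cast hn
  have hc : Continuous (sgN n) := by unfold sgN; fun_prop
  have hmono : Monotone (sgN n) := by
    intro a b hab
    unfold sgN
    apply div_le_div_of_nonneg_right _ (by positivity)
    have : Real.exp (-(2 * n * b)) ≤ Real.exp (-(2 * n * a)) := by
      apply Real.exp_le_exp.2
      have : 2 * (n : ℝ) * a ≤ 2 * n * b := mul_le_mul_of_nonneg_left hab (by positivity)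
      linarith
    linarith
  apply uniqueDiffOn_convex
  · apply Set.OrdConnected.convex
    refine ⟨fun a ha b hb z hz => ⟨le_trans ha.1 hz.1, lt_of_le_of_lt (hmono hz.2) hb.2⟩⟩
  · have ho : IsOpen {t : ℝ | 0 < t ∧ sgN n t < TE} :=
      (isOpen_lt continuous_const continuous_id).inter (isOpen_lt hc continuous_const)
    refine ⟨TE / 2, mem_interior.2 ⟨_, fun z hz => ⟨hz.1.le, hz.2⟩, ho, ?_⟩⟩
    exact ⟨by positivity, lt_of_le_of_lt (sgN_le hn _) (by linarith)⟩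

theorem hPNA (hCNN : StCNN) (hPIH : StPIH) (hPIZ : StPIZ) (hPRS : StPRS) (hBLI : StBLI)
    (hHHY : StHHY) : StPNA := by
  intro n hn2 M _ _ _ _ _ _ F ν TE hTE hTE1 hF hν hpin
  have hn1 : 1 ≤ n := by omega
  have hn0 : (0 : ℝ) < n := by exact_mod_cast hn1
  have h0 : (0 : ℝ) ∈ ISN n TE := by
    refine ⟨le_rfl, ?_⟩
    unfold sgN
    simpa using hTE
  have hud := ISN_ud hn1 hTE
  obtain ⟨τ₀, δ, hτ0, hτ1, hδ, hP⟩ := hPIH n hn1 M (ISN n TE) F ν hud h0 hF hν hpin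
  obtain ⟨hfl, hC⟩ := hCNN n hn1 M F ν TE hTE hTE1 hF hν
  -- small times
  have hsmall : ∀ τ ∈ Ioo 0 TE, tmN n τ < δ →
      Function.Injective (fun q => FEN n F q τ) ∧
        ∃ k : ℝ, 0 < k ∧ k < 1 ∧ PinK n k (FEN n F) (nuN n ν) τ := by
    intro τ hτ hlt
    obtain ⟨c1, c2, c3, c4⟩ := hC τ ⟨hτ.1.le, hτ.2⟩
    have hy := hHHY n M (Ioo 0 TE) (FEN n F) (nuN n ν) hfl τ hτ
    refine hPIZ n hn2 M (Real.sqrt (rr n τ)) τ (FEN n F) (nuN n ν) hy
      (Real.sq_sqrt c3.le).symm τ₀ hτ0 hτ1 ?_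
    intro q c hc
    obtain ⟨d1, d2⟩ := (c4 q).2 c
    rw [d1] at hc
    have hss : Real.sqrt (rr n τ) ^ 2 = rr n τ := Real.sq_sqrt c3.le
    have e1 : gn F q (tmN n τ) (Real.sqrt (rr n τ) • c) = 1 := by
      rw [gn_smul, hss]; exact hc
    have e2 := hP _ c1 c1.1 hlt q _ e1
    rw [hn_smul] at e2
    rw [d2]
    have e3 : Real.sqrt (rr n τ) * (Real.sqrt (rr n τ) * hn F ν q (tmN n τ) c)
        = Real.sqrt (rr n τ) ^ 2 * hn F ν q (tmN n τ) c := by ring
    rw [e3]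
    exact e2
  set t' : ℝ := min δ TE / 2 with ht'
  have hm : 0 < min δ TE := lt_min hδ hTE
  have ht'0 : 0 < t' := by rw [ht']; linarith
  have ht'1 : t' < δ := by rw [ht']; linarith [min_le_left δ TE]
  have ht'2 : t' < TE := by rw [ht']; linarith [min_le_right δ TE]
  set t₁ : ℝ := sgN n t' with ht₁
  have ht₁m : t₁ ∈ Ioo 0 TE := ⟨sgN_pos hn1 ht'0, lt_of_le_of_lt (sgN_le hn1 _) ht'2⟩
  have ht₁t : tmN n t₁ = t' := tmN_sgN hn1 t'
  obtain ⟨hinj1, k₀, hk0, hk1, hpk⟩ := hsmall t₁ ht₁m (by rw [ht₁t]; exact ht'1)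
  have hlarge : ∀ τ ∈ Ico t₁ TE, Function.Injective (fun q => FEN n F q τ) ∧
      PinK n ((1 + k₀) / 2) (FEN n F) (nuN n ν) τ := by
    intro τ hτ
    exact hPRS n hn1 M (Ioo 0 TE) (FEN n F) (nuN n ν) hfl t₁ τ hτ.1
      (fun s hs => ⟨lt_of_lt_of_le ht₁m.1 hs.1, lt_of_le_of_lt hs.2 hτ.2⟩) k₀ ((1 + k₀) / 2) hk0
      (by linarith) (by linarith) hinj1 hpk τ ⟨hτ.1, le_rfl⟩
  refine ⟨fun t ht => ?_, (1 + k₀) / 2, t₁, by linarith, by linarith, ht₁m, hlarge⟩
  rcases ht.1.lt_or_eq with hpos | hzero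
  · have hτm : sgN n t ∈ Ioo 0 TE := ⟨sgN_pos hn1 hpos, ht.2⟩
    have hinj : Function.Injective (fun q => FEN n F q (sgN n t)) := by
      by_cases hle : t₁ ≤ sgN n t
      · exact (hlarge _ ⟨hle, ht.2⟩).1
      · push Not at hle
        refine (hsmall _ hτm ?_).1
        have h1 := tmN_mono hn1 hle.le (hC t₁ ⟨ht₁m.1.le, ht₁m.2⟩).2.2.1
        rw [ht₁t] at h1
        linarith
    intro q q' hqq
    apply hinj
    simp only at hqq ⊢
    unfold FEN
    rw [tmN_sgN hn1, hqq]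
  · rw [← hzero]
    have hsm : ContMDiff (𝓡 n) ((𝓡 n).prod 𝓘(ℝ, ℝ)) ∞ (fun q : M => (q, (0 : ℝ))) :=
      contMDiff_id.prodMk contMDiff_const
    have hy : Hyp n 1 0 F ν :=
      { ρ0 := one_pos
        sF := hF.smooth.comp_contMDiff hsm (fun q => ⟨mem_univ _, h0⟩)
        sν := hν.sν.comp_contMDiff hsm (fun q => ⟨mem_univ _, h0⟩)
        im := fun q => hF.imm q 0 h0
        nF := fun q => hF.sph q 0 h0
        nν := fun q => hν.nν q 0 h0
        Fν := fun q => hν.Fν q 0 h0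
        tν := fun q => hν.tν q 0 h0 }
    exact (hBLI n hn2 M 1 0 F ν hy 1 one_pos).2 le_rfl (fun q c hc => by
      rw [one_mul]; exact hpin q c hc)

end Helper8.HSF
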