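import Pool.Agent.Helper35.HSF.StE

/-!
Project HSF, module TYI: type I bounds in finite time.
-/

set_option autoImplicit false

namespace Helper8.HSF

open Helper35.HSF Helper35.MS Helper35.PI Helper35.PI2 Helper32.CL
open scoped ContDiff Manifold Topology ENNReal BigOperators
open MeasureTheory Set Filter

/-- the test function `σ (v H² - 1)`, `v(t) = d - c t` -/
noncomputable def ufn {M : Type} (H : M → ℝ → ℝ) (σ d c : ℝ) (q : M) (t : ℝ) : ℝ :=
  σ * ((d - c * t) * (H q t * H q t)) + (-σ) * 1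

theorem ufn_facts (hHTR : StHTR) {n N : ℕ} {M : Type} [TopologicalSpace M]
    [ChartedSpace (EE n) M] [IsManifold (𝓡 n) ∞ M] {J : Set ℝ} {F : M → ℝ → EE N}
    (hI : IsImmJ (n := n) J F) {H : M → ℝ → ℝ} (sH : SmJ n J H) (σ d c : ℝ) :
    SmJ n J (ufn H σ d c) ∧ ∀ q, ∀ t ∈ J,
      gdM n F t (fun q => ufn H σ d c q t) q
        = (σ * (d - c * t) * (2 * H q t)) • gdM n F t (fun q => H q t) q ∧
      htN n F (ufn H σ d c) q t = σ * ((d - c * t) * (2 * H q t * htN n F H q t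
        - 2 * ‖gdM n F t (fun q => H q t) q‖ ^ 2) - c * (H q t * H q t)) := by
  obtain ⟨⟨p1, p2⟩, -, -, p3⟩ := hHTR n N M J F hI H H sH sH
  have cv : ContDiffOn ℝ ∞ (fun t : ℝ => d - c * t) J :=
    (contDiff_const.sub (contDiff_const.mul contDiff_id)).contDiffOn
  have c1 : ContDiffOn ℝ ∞ (fun _ : ℝ => (1 : ℝ)) J := contDiff_const.contDiffOn
  obtain ⟨v1, v2⟩ := p3 _ cv
  obtain ⟨o1, o2⟩ := p3 _ c1
  obtain ⟨⟨r1, r2⟩, -, -, -⟩ := hHTR n N M J F hI _ _ v1 p1
  obtain ⟨-, l1, -, -⟩ := hHTR n N M J F hI _ _ r1 o1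
  obtain ⟨l2, l3⟩ := l1 σ (-σ)
  refine ⟨l2, fun q t ht => ⟨?_, ?_⟩⟩
  · have e1 := (l3 q t ht).1
    rw [(r2 q t ht).1, (p2 q t ht).1, (v2 q t ht).1, (o2 q t ht).1] at e1
    have e2 : gdM n F t (fun q => ufn H σ d c q t) q
        = gdM n F t (fun q => σ * ((d - c * t) * (H q t * H q t)) + -σ * 1) q := rfl
    rw [e2, e1, smul_zero, smul_zero, add_zero, add_zero, ← add_smul, smul_smul, smul_smul]
    congr 1
    ring
  · have e1 := (l3 q t ht).2
    rw [(r2 q t ht).2, (p2 q t ht).2, (v2 q t ht).1, (v2 q t ht).2, (o2 q t ht).2] at e1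
    have e2 : htN n F (ufn H σ d c) q t
        = htN n F (fun q t => σ * ((d - c * t) * (H q t * H q t)) + -σ * 1) q t := rfl
    have e3 : deriv (fun t : ℝ => d - c * t) t = -c := by
      have : HasDerivAt (fun t : ℝ => d - c * t) (-(c * 1)) t :=
        ((hasDerivAt_id t).const_mul c).const_sub d
      rw [this.deriv, mul_one]
    rw [e2, e1, e3, inner_zero_left, deriv_const, real_inner_self_eq_norm_sq]
    ring

theorem hTYI (hFBS : StFBS) (hFZP : StFZP) (hEVF : StEVF) (hHTR : StHTR) : StTYI := by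
  intro n hn M _ _ _ _ _ _ T F ν ts ε hD
  have hfl := hD.fl
  have hI := hfl.mcf.toIsImmJ
  have hn0 : (0 : ℝ) < n := by exact_mod_cast hn
  have hn1 : (1 : ℝ) ≤ n := by exact_mod_cast hn
  have hε := hD.ε0
  obtain ⟨sHs, -, hE⟩ := hEVF n hn M (Ioo 0 T) F ν hfl
  have hJ : ∀ t ∈ Ico ts T, t ∈ Ioo 0 T := fun t ht => ⟨lt_of_lt_of_le hD.ts0.1 ht.1, ht.2⟩
  set r₀ : ℝ := 1 - 2 * n * T with hr0
  have hr00 : 0 < r₀ := by rw [hr0]; linarith [hD.T1]
  have hrr : ∀ t ∈ Ico ts T, r₀ ≤ rr n t := by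
    intro t ht
    unfold rr
    have : 2 * (n : ℝ) * t ≤ 2 * n * T := by
      apply mul_le_mul_of_nonneg_left ht.2.le; positivity
    rw [hr0]; linarith
  set B : ℝ := 1 + 2 * n / (r₀ * (n * ε) ^ 2) with hB
  have hB1 : 1 ≤ B := by
    rw [hB]
    have : 0 ≤ 2 * (n : ℝ) / (r₀ * (n * ε) ^ 2) := by positivity
    linarith
  have hne : 0 < n * ε := by positivity
  -- upper bound for the minimum
  have hU : ∀ t₀ ∈ Ico ts T, ∃ q, Hs n F ν q t₀ ^ 2 * (T - t₀) ≤ n := by
    intro t₀ ht₀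
    by_contra hcon
    push Not at hcon
    have hT0 : 0 < T - t₀ := by linarith [ht₀.2]
    set tb : ℝ := (t₀ + T) / 2 with htb
    have htb1 : t₀ < tb := by rw [htb]; linarith
    have htb2 : tb < T := by rw [htb]; linarith
    obtain ⟨su, hu⟩ := ufn_facts hHTR hI sHs (-1) (2 / n * tb) (2 / n)
    have hsub : Icc t₀ tb ⊆ Ioo 0 T := fun t ht => hJ t ⟨le_trans ht₀.1 ht.1, lt_of_le_of_lt ht.2 htb2⟩
    obtain ⟨q⟩ := (inferInstance : Nonempty M)
    have hfin := hFZP n (n + 2) M (Ioo 0 T) F hfl.mcf _ t₀ tb su hsub ?_ ?_ q tb ⟨htb1.le, le_rfl⟩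
    · unfold ufn at hfin
      have : (2 / (n : ℝ) * tb - 2 / n * tb) = 0 := by ring
      rw [this] at hfin
      norm_num at hfin
    · intro q
      unfold ufn
      have h1 := hcon q
      have h2 : 2 / (n : ℝ) * tb - 2 / n * t₀ = (T - t₀) / n := by
        rw [htb]; field_simp; ring
      rw [h2]
      have h3 : 1 < (T - t₀) / n * (Hs n F ν q t₀ * Hs n F ν q t₀) := by
        rw [div_mul_eq_mul_div, lt_div_iff₀ hn0]
        nlinarith
      linarith
    · intro q t ht h0 hg _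
      have ht' : t ∈ Ico ts T := ⟨le_trans ht₀.1 ht.1.le, lt_of_le_of_lt ht.2 htb2⟩
      obtain ⟨f1, f2, f3, f4, f5, f6, f7, f8, f9⟩ := hFBS n hn M T F ν ts ε hD t ht' q q
      have hpos : 0 < Hs n F ν q t := lt_of_lt_of_le hne f1
      have hv : (2 / (n : ℝ) * tb - 2 / n * t) * (Hs n F ν q t * Hs n F ν q t) = 1 := by
        unfold ufn at h0; linarith
      have hvpos : 0 < 2 / (n : ℝ) * tb - 2 / n * t := by
        by_contra hneg
        push Not at hneg
        nlinarith [mul_pos hpos hpos]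
      rw [(hu q t (hJ t ht')).1] at hg
      have hg0 : gdM n F t (fun q => Hs n F ν q t) q = 0 := by
        rcases smul_eq_zero.1 hg with h | h
        · exfalso
          have : 0 < (2 / (n : ℝ) * tb - 2 / n * t) * (2 * Hs n F ν q t) := by positivity
          nlinarith
        · exact h
      rw [(hu q t (hJ t ht')).2, hg0, norm_zero, (hE q t (hJ t ht')).2.2.2.2.1]
      have he : eN n F q t = Hs n F ν q t ^ 2 := (hE q t (hJ t ht')).2.1
      have hrp : 0 < 2 * (n : ℝ) / rr n t := by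
        have := hrr t ht'
        have : 0 < rr n t := by linarith
        positivity
      have h4 : Hs n F ν q t ^ 2 / n ≤ h2N n F q t := by rw [f9, he]; linarith
      have h5 : -1 * ((2 / (n : ℝ) * tb - 2 / n * t) * (2 * Hs n F ν q t *
          ((h2N n F q t + 2 * n / rr n t) * Hs n F ν q t) - 2 * (0 : ℝ) ^ 2)
          - 2 / n * (Hs n F ν q t * Hs n F ν q t))
          = -2 * (h2N n F q t + 2 * n / rr n t) *
            ((2 / (n : ℝ) * tb - 2 / n * t) * (Hs n F ν q t * Hs n F ν q t))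
            + 2 * (Hs n F ν q t ^ 2 / n) := by ring
      rw [h5, hv]
      linarith
  -- lower bound for the maximum
  have hLo : ∀ t₀ ∈ Ico ts T, ∃ q, 1 ≤ 8 * B * (T - t₀) * Hs n F ν q t₀ ^ 2 := by
    intro t₀ ht₀
    by_contra hcon
    push Not at hcon
    have hT0 : 0 < T - t₀ := by linarith [ht₀.2]
    obtain ⟨t₂, ht₂, ht₂', q, hq⟩ := hD.unb (1 / (4 * B * (T - t₀)) + n / r₀) t₀ ht₀.2
    obtain ⟨su, hu⟩ := ufn_facts hHTR hI sHs 1 (4 * B * (2 * T - t₀)) (4 * B)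
    have hsub : Icc t₀ t₂ ⊆ Ioo 0 T := fun t ht =>
      hJ t ⟨le_trans ht₀.1 ht.1, lt_of_le_of_lt ht.2 ht₂.2⟩
    have ht2 : t₂ ∈ Ico ts T := ⟨le_trans ht₀.1 ht₂'.le, ht₂.2⟩
    have hfin := hFZP n (n + 2) M (Ioo 0 T) F hfl.mcf _ t₀ t₂ su hsub ?_ ?_ q t₂
      ⟨ht₂'.le, le_rfl⟩
    · obtain ⟨f1, f2, f3, f4, f5, f6, f7, f8, f9⟩ := hFBS n hn M T F ν ts ε hD t₂ ht2 q q
      have he : eN n F q t₂ = Hs n F ν q t₂ ^ 2 := (hE q t₂ (hJ t₂ ht2)).2.1
      unfold ufn at hfin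
      have h1 : 4 * B * (T - t₀) * Hs n F ν q t₂ ^ 2 < 1 := by
        have h2 : 4 * B * (T - t₀) ≤ 4 * B * (2 * T - t₀) - 4 * B * t₂ := by
          nlinarith [ht₂.2]
        have h3 := mul_le_mul_of_nonneg_right h2 (sq_nonneg (Hs n F ν q t₂))
        nlinarith
      have h4 : Hs n F ν q t₂ ^ 2 < 1 / (4 * B * (T - t₀)) := by
        rw [lt_div_iff₀ (by positivity)]
        linarith
      have h5 : (n : ℝ) / rr n t₂ ≤ n / r₀ :=
        div_le_div_of_nonneg_left hn0.le hr00 (hrr t₂ ht2)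
      have h6 : AA (n := n) F q t₂ = h2N n F q t₂ + n / rr n t₂ := by unfold h2N; ring
      rw [h6] at hq
      rw [he] at f8
      linarith
    · intro q
      unfold ufn
      have h1 := hcon q
      have h2 : 4 * B * (2 * T - t₀) - 4 * B * t₀ = 8 * B * (T - t₀) := by ring
      rw [h2]
      nlinarith
    · intro q t ht h0 hg _
      have ht' : t ∈ Ico ts T := ⟨le_trans ht₀.1 ht.1.le, lt_of_le_of_lt ht.2 ht₂.2⟩
      obtain ⟨f1, f2, f3, f4, f5, f6, f7, f8, f9⟩ := hFBS n hn M T F ν ts ε hD t ht' q q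
      have hpos : 0 < Hs n F ν q t := lt_of_lt_of_le hne f1
      have he : eN n F q t = Hs n F ν q t ^ 2 := (hE q t (hJ t ht')).2.1
      rw [he] at f8
      have hv : (4 * B * (2 * T - t₀) - 4 * B * t) * (Hs n F ν q t * Hs n F ν q t) = 1 := by
        unfold ufn at h0; linarith
      have hvpos : 0 < 4 * B * (2 * T - t₀) - 4 * B * t := by
        nlinarith [ht'.2]
      rw [(hu q t (hJ t ht')).2, (hE q t (hJ t ht')).2.2.2.2.1]
      have hrp : 2 * (n : ℝ) / rr n t ≤ (B - 1) * Hs n F ν q t ^ 2 := by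
        have h1 : 2 * (n : ℝ) / rr n t ≤ 2 * n / r₀ :=
          div_le_div_of_nonneg_left (by positivity) hr00 (hrr t ht')
        have h2 : (n * ε) ^ 2 ≤ Hs n F ν q t ^ 2 := pow_le_pow_left₀ hne.le f1 2
        have h3 : 2 * (n : ℝ) / r₀ = (B - 1) * (n * ε) ^ 2 := by
          rw [hB]; field_simp; ring
        rw [h3] at h1
        have h4 : (B - 1) * (n * ε) ^ 2 ≤ (B - 1) * Hs n F ν q t ^ 2 :=
          mul_le_mul_of_nonneg_left h2 (by linarith)
        linarith
      have h5 : 1 * ((4 * B * (2 * T - t₀) - 4 * B * t) * (2 * Hs n F ν q t *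
          ((h2N n F q t + 2 * n / rr n t) * Hs n F ν q t)
            - 2 * ‖gdM n F t (fun q => Hs n F ν q t) q‖ ^ 2)
          - 4 * B * (Hs n F ν q t * Hs n F ν q t))
          = 2 * (h2N n F q t + 2 * n / rr n t) *
            ((4 * B * (2 * T - t₀) - 4 * B * t) * (Hs n F ν q t * Hs n F ν q t))
            - 4 * B * Hs n F ν q t ^ 2
            - (4 * B * (2 * T - t₀) - 4 * B * t) *
              (2 * ‖gdM n F t (fun q => Hs n F ν q t) q‖ ^ 2) := by ring
      rw [h5, hv]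
      have h6 : 0 ≤ (4 * B * (2 * T - t₀) - 4 * B * t) *
              (2 * ‖gdM n F t (fun q => Hs n F ν q t) q‖ ^ 2) := by positivity
      have h7 : 0 < B * Hs n F ν q t ^ 2 := by positivity
      generalize (4 * B * (2 * T - t₀) - 4 * B * t) *
              (2 * ‖gdM n F t (fun q => Hs n F ν q t) q‖ ^ 2) = Z at h6 ⊢
      have h8 : (B - 1) * Hs n F ν q t ^ 2 = B * Hs n F ν q t ^ 2 - Hs n F ν q t ^ 2 := by ring
      have h9 : 4 * B * Hs n F ν q t ^ 2 = 4 * (B * Hs n F ν q t ^ 2) := by ring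
      rw [h8] at hrp
      rw [h9, mul_one]
      linarith
  refine ⟨1 + n / ε ^ 2 + 8 * B / ε ^ 2, ?_, fun t ht q => ?_⟩
  · have h1 : 0 ≤ (n : ℝ) / ε ^ 2 := by positivity
    have h2 : 0 ≤ 8 * B / ε ^ 2 := by positivity
    linarith
  · have hT0 : 0 < T - t := by linarith [ht.2]
    have he : eN n F q t = Hs n F ν q t ^ 2 := (hE q t (hJ t ht)).2.1
    have hpos : 0 < Hs n F ν q t := lt_of_lt_of_le hne (hFBS n hn M T F ν ts ε hD t ht q q).1
    have h1 : 0 ≤ (n : ℝ) / ε ^ 2 := by positivity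
    have h2 : 0 ≤ 8 * B / ε ^ 2 := by positivity
    have hX : 0 < (T - t) * eN n F q t := by rw [he]; positivity
    constructor
    · obtain ⟨p, hp⟩ := hLo t ht
      have hc := (hFBS n hn M T F ν ts ε hD t ht p q).2.1
      have hp0 : 0 < Hs n F ν p t := lt_of_lt_of_le hne (hFBS n hn M T F ν ts ε hD t ht p p).1
      have h3 : (ε * Hs n F ν p t) ^ 2 ≤ Hs n F ν q t ^ 2 :=
        pow_le_pow_left₀ (by positivity) hc 2
      have h4 : 8 * B * (T - t) * Hs n F ν p t ^ 2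
          ≤ 8 * B / ε ^ 2 * ((T - t) * eN n F q t) := by
        rw [he, div_mul_eq_mul_div, le_div_iff₀ (by positivity)]
        have h5 : 0 ≤ 8 * B * (T - t) := by positivity
        have h6 := mul_le_mul_of_nonneg_left h3 h5
        calc 8 * B * (T - t) * Hs n F ν p t ^ 2 * ε ^ 2
            = 8 * B * (T - t) * (ε * Hs n F ν p t) ^ 2 := by ring
          _ ≤ 8 * B * (T - t) * Hs n F ν q t ^ 2 := h6
          _ = 8 * B * ((T - t) * Hs n F ν q t ^ 2) := by ring
      have h5 : (1 + n / ε ^ 2 + 8 * B / ε ^ 2) * ((T - t) * eN n F q t)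
          = (1 + n / ε ^ 2) * ((T - t) * eN n F q t)
            + 8 * B / ε ^ 2 * ((T - t) * eN n F q t) := by ring
      have h6 : 0 ≤ (1 + n / ε ^ 2) * ((T - t) * eN n F q t) :=
        mul_nonneg (by linarith) hX.le
      rw [h5]
      linarith
    · obtain ⟨p, hp⟩ := hU t ht
      have hc := (hFBS n hn M T F ν ts ε hD t ht q p).2.1
      have h3 : (ε * Hs n F ν q t) ^ 2 ≤ Hs n F ν p t ^ 2 :=
        pow_le_pow_left₀ (by positivity) hc 2
      have h4 : (T - t) * eN n F q t ≤ n / ε ^ 2 := by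
        rw [he, le_div_iff₀ (by positivity)]
        nlinarith [mul_le_mul_of_nonneg_left h3 hT0.le]
      linarith

end Helper8.HSF
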