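import Pool.Agent.Helper35.HSF.StC

/-!
Project HSF, module EVF: evolution of the basic functions of a hypersurface flow of the sphere.
-/

set_option autoImplicit false

namespace Helper8.HSF

open Helper35.HSF Helper35.MS Helper35.PI Helper35.PI2 Helper32.CL
open scoped ContDiff Manifold Topology ENNReal BigOperators
open MeasureTheory Set Filter

theorem inner_ee {n : ℕ} (i j : Fin n) : (inner ℝ (ee i : EE n) (ee j) : ℝ)
    = if i = j then 1 else 0 := by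
  unfold ee
  rw [EuclideanSpace.inner_single_left]
  simp

/-- completeness of the frame `L e_k, ν, x/ρ` -/
theorem frame_expand {n : ℕ} (L : EE n →ₗᵢ[ℝ] EE (n + 2)) (ν x : EE (n + 2)) (r : ℝ) (hr : 0 < r)
    (hν : ‖ν‖ = 1) (hx : ‖x‖ ^ 2 = r) (hxν : (inner ℝ x ν : ℝ) = 0)
    (hL : ∀ v, (inner ℝ (L v) ν : ℝ) = 0 ∧ (inner ℝ (L v) x : ℝ) = 0) (c : EE (n + 2)) :
    c = (∑ k, (inner ℝ (L (ee k)) c : ℝ) • L (ee k)) + (inner ℝ ν c : ℝ) • ν
      + ((inner ℝ x c : ℝ) / r) • x := by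
  classical
  set s : ℝ := Real.sqrt r with hs
  have hs0 : 0 < s := Real.sqrt_pos.2 hr
  have hss : s * s = r := Real.mul_self_sqrt hr.le
  have hνν : (inner ℝ ν ν : ℝ) = 1 := by
    rw [real_inner_self_eq_norm_sq, hν]; norm_num
  have hxx : (inner ℝ x x : ℝ) = r := by rw [real_inner_self_eq_norm_sq, hx]
  have hνx : (inner ℝ ν x : ℝ) = 0 := by rw [real_inner_comm]; exact hxν
  let b : Fin n ⊕ Fin 2 → EE (n + 2) :=
    Sum.elim (fun k => L (ee k)) ![ν, s⁻¹ • x]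
  have hb : Orthonormal ℝ b := by
    rw [orthonormal_iff_ite]
    have hLν : ∀ v, (inner ℝ ν (L v) : ℝ) = 0 := fun v => by rw [real_inner_comm]; exact (hL v).1
    have hLx : ∀ v, (inner ℝ x (L v) : ℝ) = 0 := fun v => by rw [real_inner_comm]; exact (hL v).2
    rintro (i | i) (j | j)
    · simp only [b, Sum.elim_inl]
      rw [LinearIsometry.inner_map_map, inner_ee]
      simp
    · fin_cases j <;> simp [b, real_inner_smul_right, (hL (ee i)).1, (hL (ee i)).2]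
    · fin_cases i <;> simp [b, real_inner_smul_left, hLν, hLx]
    · fin_cases i <;> fin_cases j
      · change (inner ℝ ν ν : ℝ) = _
        rw [hνν]; simp
      · change (inner ℝ ν (s⁻¹ • x) : ℝ) = _
        rw [real_inner_smul_right, hνx]; simp
      · change (inner ℝ (s⁻¹ • x) ν : ℝ) = _
        rw [real_inner_smul_left, hxν]; simp
      · change (inner ℝ (s⁻¹ • x) (s⁻¹ • x) : ℝ) = _
        rw [real_inner_smul_left, real_inner_smul_right, hxx, ← hss]
        simp only [Fin.mk_one, if_true]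
        field_simp
  have hcard : Fintype.card (Fin n ⊕ Fin 2) = Module.finrank ℝ (EE (n + 2)) := by
    simp
  have hsp : ⊤ ≤ Submodule.span ℝ (Set.range b) := by
    have := (basisOfOrthonormalOfCardEqFinrank hb hcard).span_eq
    rw [coe_basisOfOrthonormalOfCardEqFinrank] at this
    exact this.ge
  let B := OrthonormalBasis.mk hb hsp
  have hB : ∀ i, B i = b i := fun i => by simp [B]
  have h1 := B.sum_repr' c
  simp only [hB] at h1
  rw [Fintype.sum_sum_type, Fin.sum_univ_two] at h1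
  simp only [b, Sum.elim_inl, Sum.elim_inr, Matrix.cons_val_zero, Matrix.cons_val_one] at h1
  rw [real_inner_smul_left, smul_smul] at h1
  have h2 : s⁻¹ * (inner ℝ x c : ℝ) * s⁻¹ = (inner ℝ x c : ℝ) / r := by
    rw [← hss]; field_simp
  rw [h2] at h1
  rw [← add_assoc] at h1
  exact h1.symm

theorem jt_inner {n N : ℕ} (φ ψ : EE n × ℝ → EE N) (z : EE n × ℝ)
    (hφ : DifferentiableAt ℝ φ z) (hψ : DifferentiableAt ℝ ψ z) :
    jt (fun z => (inner ℝ (φ z) (ψ z) : ℝ)) z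
      = inner ℝ (jt φ z) (ψ z) + inner ℝ (φ z) (jt ψ z) := by
  unfold jt
  rw [fderiv_inner_apply ℝ hφ hψ, add_comm]

theorem smj_inner {n N : ℕ} {M : Type} [TopologicalSpace M] [ChartedSpace (EE n) M] {J : Set ℝ}
    {a b : M → ℝ → EE N} (ha : SmV n J a) (hb : SmV n J b) :
    SmJ n J (fun q t => (inner ℝ (a q t) (b q t) : ℝ)) := by
  unfold SmJ
  have h1 : ContDiff ℝ ∞ (fun p : EE N × EE N => (inner ℝ p.1 p.2 : ℝ)) := contDiff_inner
  exact h1.contMDiff.comp_contMDiffOn (ha.prodMk_space hb)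

/-- the facts of a graph chart which are used below -/
structure Fx (n : ℕ) {M : Type} [TopologicalSpace M] [ChartedSpace (EE n) M] (J : Set ℝ)
    (F ν : M → ℝ → EE (n + 2)) (q : M) (t : ℝ) (L : EE n →ₗᵢ[ℝ] EE (n + 2))
    (u : EE n × ℝ → EE (n + 2)) (θ : EE n × ℝ → M) (K : Fin n → Fin n → ℝ) : Prop where
  G : GCh n F q t L u θ
  eJ : ∀ᶠ z in 𝓝 ((0 : EE n), t), z.2 ∈ J
  m : ContDiffAt ℝ ∞ (fun z : EE n × ℝ => ν (θ z) z.2) (0, t)
  A : ∀ i j, jgg u (0, t) i j = K i j • ν q t - (if i = j then 1 / rr n t else 0) • F q t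
  sy : ∀ i j, K i j = K j i
  L0 : ∀ v, (inner ℝ (L v) (ν q t) : ℝ) = 0 ∧ (inner ℝ (L v) (F q t) : ℝ) = 0
  mj : ∀ k, jg (fun z : EE n × ℝ => ν (θ z) z.2) (0, t) k = -∑ j, K k j • L (ee j)
  mh : jh (fun z : EE n × ℝ => ν (θ z) z.2) (0, t)
      = h2N n F q t • ν q t - (2 * Hs n F ν q t / rr n t) • F q t
  H : Hs n F ν q t = ∑ i, K i i

theorem HH_eq (hG10 : StG10) {n : ℕ} {M : Type} [TopologicalSpace M] [ChartedSpace (EE n) M]
    {J : Set ℝ} {F ν : M → ℝ → EE (n + 2)} {q : M} {t : ℝ} {L : EE n →ₗᵢ[ℝ] EE (n + 2)}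
    {u : EE n × ℝ → EE (n + 2)} {θ : EE n × ℝ → M} {K : Fin n → Fin n → ℝ}
    (f : Fx n J F ν q t L u θ K) :
    Hv (jgg u (0, t)) = HH (n := n) F q t ∧
    HH (n := n) F q t = Hs n F ν q t • ν q t - (n / rr n t) • F q t := by
  have e1 := f.G.hH.self_of_nhds.1
  rw [f.G.pt] at e1
  simp only at e1
  have e2 := (hG10 n (n + 2) (F q t) L u t f.G.sol).1
  have e3 : Hv (jgg u (0, t)) = HH (n := n) F q t := by rw [e1, e2]
  refine ⟨e3, ?_⟩
  rw [← e3, f.H]
  unfold Hv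
  simp only [f.A, if_true]
  rw [Finset.sum_sub_distrib, Finset.sum_smul]
  simp only [Finset.sum_const, Finset.card_univ, Fintype.card_fin]
  rw [← Nat.cast_smul_eq_nsmul ℝ, smul_smul]
  congr 2
  ring

/-- the heat operator of `Hs` -/
theorem jh_Hs (hG1 : StG1) (hG2 : StG2) (hG3 : StG3) (hG4 : StG4) (hG5 : StG5)
    (hJA : StJA) (hJB : StJB) (hNR : StNR) {n : ℕ} {M : Type} [TopologicalSpace M]
    [ChartedSpace (EE n) M]
    {J : Set ℝ} {F ν : M → ℝ → EE (n + 2)} {q : M} {t : ℝ} {L : EE n →ₗᵢ[ℝ] EE (n + 2)}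
    {u : EE n × ℝ → EE (n + 2)} {θ : EE n × ℝ → M} {K : Fin n → Fin n → ℝ}
    (h : HFl n J F ν) (ht : t ∈ J) (f : Fx n J F ν q t L u θ K) :
    jh (fun z : EE n × ℝ => Hs n F ν (θ z) z.2) (0, t)
      = (h2N n F q t + 2 * n / rr n t) * Hs n F ν q t := by
  have hr := h.r0 t ht
  have hνν : (inner ℝ (ν q t) (ν q t) : ℝ) = 1 := by
    rw [real_inner_self_eq_norm_sq, h.nν q t ht]; norm_num
  have hFν : (inner ℝ (F q t) (ν q t) : ℝ) = 0 := h.Fν q t ht
  have hνF : (inner ℝ (ν q t) (F q t) : ℝ) = 0 := by rw [real_inner_comm]; exact hFν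
  have hFF : (inner ℝ (F q t) (F q t) : ℝ) = rr n t := by
    rw [real_inner_self_eq_norm_sq, h.sph q t ht]
  obtain ⟨g1, g2, g3, g4⟩ := hG1 n (n + 2) (F q t) L u t f.G.sol
  have hG2' := hG2 n (n + 2) (F q t) L u t f.G.sol
  obtain ⟨k1, k2⟩ := hG3 n (n + 2) (F q t) L u t f.G.sol
  have hG4' := hG4 n (n + 2) (F q t) L u t f.G.sol
  have hG5' := hG5 n (n + 2) (F q t) L u t f.G.sol
  -- the local expression
  have e0 : (fun z : EE n × ℝ => Hs n F ν (θ z) z.2) =ᶠ[𝓝 ((0 : EE n), t)]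
      (fun z => ∑ i, ∑ j, GIf (F q t) L u i j z * inner ℝ (jgg u z i j) (ν (θ z) z.2)) := by
    filter_upwards [f.G.hH, f.G.ts, hG2', f.eJ] with z hz1 hz2 hz3 hz4
    unfold Hs
    rw [hz1.1]
    unfold mcv
    rw [sum_inner]
    refine Finset.sum_congr rfl fun i _ => ?_
    rw [sum_inner]
    refine Finset.sum_congr rfl fun j _ => ?_
    rw [real_inner_smul_left]
    unfold GIf
    congr 1
    have h1 := (hNR n (n + 2) (grf (F q t) L u z.2) z.1 hz3.2.2.2.2).2.2.1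
      (dv2 (grf (F q t) L u z.2) z.1 i j)
    rw [hz2] at h1
    have h2 := h.tν (θ z) z.2 hz4 _ h1
    rw [inner_sub_left] at h2
    unfold sff
    rw [← hz3.2.1 i j]
    linarith
  rw [((hJA n ℝ (0, t)).1 _ _ e0).2.2.2]
  have hpt : ν (θ ((0 : EE n), t)) ((0 : EE n), t).2 = ν q t := by rw [f.G.pt]
  have cm : ContDiffAt ℝ 2 (fun z : EE n × ℝ => ν (θ z) z.2) (0, t) :=
    f.m.of_le (WithTop.coe_le_coe.2 le_top)
  have cA : ∀ i j, ContDiffAt ℝ 2 (fun z => jgg u z i j) ((0 : EE n), t) := fun i j =>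
    (k2 i j).of_le (by norm_num)
  have cG : ∀ i j, ContDiffAt ℝ 2 (GIf (F q t) L u i j) ((0 : EE n), t) := fun i j =>
    (hG5' i j).1.of_le (by norm_num)
  have cb : ∀ i j, ContDiffAt ℝ 2
      (fun z : EE n × ℝ => (inner ℝ (jgg u z i j) (ν (θ z) z.2) : ℝ)) ((0 : EE n), t) :=
    fun i j => (cA i j).inner ℝ cm
  have cab : ∀ i j, ContDiffAt ℝ 2 (fun z : EE n × ℝ => GIf (F q t) L u i j z *
      (inner ℝ (jgg u z i j) (ν (θ z) z.2) : ℝ)) ((0 : EE n), t) :=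
    fun i j => (cG i j).mul (cb i j)
  have hAν : ∀ i j, (inner ℝ (jgg u ((0 : EE n), t) i j) (ν q t) : ℝ) = K i j := fun i j => by
    rw [f.A, inner_sub_left, real_inner_smul_left, real_inner_smul_left, hνν, hFν]; ring
  have hjb : ∀ i j, jh (fun z : EE n × ℝ => (inner ℝ (jgg u z i j) (ν (θ z) z.2) : ℝ))
      ((0 : EE n), t)
      = -2 * (∑ a, ∑ b, (inner ℝ (jgg u (0, t) a i) (jgg u (0, t) b j) : ℝ) * K a b)
        + inner ℝ (jgg u ((0 : EE n), t) i j)
          (h2N n F q t • ν q t - (2 * Hs n F ν q t / rr n t) • F q t) := by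
    intro i j
    rw [((hJB n (n + 2) (0, t)).2 _ _ (cA i j) cm).2, hG4' i j, hpt, f.mh]
    have hz : ∑ k, (inner ℝ (jg (fun z => jgg u z i j) ((0 : EE n), t) k)
        (jg (fun z : EE n × ℝ => ν (θ z) z.2) (0, t) k) : ℝ) = 0 := by
      refine Finset.sum_eq_zero fun k _ => ?_
      rw [f.mj k, inner_neg_right, inner_sum]
      rw [Finset.sum_eq_zero fun l _ => ?_, neg_zero]
      rw [real_inner_smul_right]
      have := g4 k i j (ee l)
      unfold jggg at this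
      rw [this, mul_zero]
    rw [hz, real_inner_smul_left, sum_inner]
    simp only [sum_inner, real_inner_smul_left, hAν]
    ring
  have hsum : jh (fun z : EE n × ℝ => ∑ i, ∑ j, GIf (F q t) L u i j z *
      (inner ℝ (jgg u z i j) (ν (θ z) z.2) : ℝ)) ((0 : EE n), t)
      = ∑ i, ∑ j, jh (fun z : EE n × ℝ => GIf (F q t) L u i j z *
      (inner ℝ (jgg u z i j) (ν (θ z) z.2) : ℝ)) ((0 : EE n), t) := by
    rw [((hJA n ℝ (0, t)).2.2.2.2 n (fun i z => ∑ j, GIf (F q t) L u i j z *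
      (inner ℝ (jgg u z i j) (ν (θ z) z.2) : ℝ)) fun i => ContDiffAt.sum fun j _ => cab i j).2]
    refine Finset.sum_congr rfl fun i _ => ?_
    rw [((hJA n ℝ (0, t)).2.2.2.2 n (fun j z => GIf (F q t) L u i j z *
      (inner ℝ (jgg u z i j) (ν (θ z) z.2) : ℝ)) fun j => cab i j).2]
  rw [hsum]
  have hterm : ∀ i j, jh (fun z : EE n × ℝ => GIf (F q t) L u i j z *
      (inner ℝ (jgg u z i j) (ν (θ z) z.2) : ℝ)) ((0 : EE n), t)
      = 2 * (∑ k, (inner ℝ (jgg u (0, t) i k) (jgg u (0, t) j k) : ℝ) * K i j)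
        + (if i = j then 1 else 0) *
          (-2 * (∑ a, ∑ b, (inner ℝ (jgg u (0, t) a i) (jgg u (0, t) b j) : ℝ) * K a b)
        + inner ℝ (jgg u ((0 : EE n), t) i j)
          (h2N n F q t • ν q t - (2 * Hs n F ν q t / rr n t) • F q t)) := by
    intro i j
    rw [((hJB n (n + 2) (0, t)).1 _ _ (cG i j) (cb i j)).2, hjb i j, (hG5' i j).2.2.2,
      (hG5' i j).2.1, hpt, hAν]
    have hz : ∑ k, jg (GIf (F q t) L u i j) ((0 : EE n), t) k *
        jg (fun z : EE n × ℝ => (inner ℝ (jgg u z i j) (ν (θ z) z.2) : ℝ)) (0, t) k = 0 :=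
      Finset.sum_eq_zero fun k _ => by rw [(hG5' i j).2.2.1 k, zero_mul]
    rw [hz, ← Finset.sum_mul]
    ring
  simp only [hterm, ite_mul, one_mul, zero_mul]
  simp only [Finset.sum_add_distrib, Finset.sum_ite_eq, Finset.mem_univ, if_true]
  have hS : ∑ i, ∑ a, ∑ b, (inner ℝ (jgg u ((0 : EE n), t) a i) (jgg u (0, t) b i) : ℝ) * K a b
      = ∑ i, ∑ j, ∑ k, (inner ℝ (jgg u ((0 : EE n), t) i k) (jgg u (0, t) j k) : ℝ) * K i j := by
    rw [Finset.sum_comm]
    refine Finset.sum_congr rfl fun a _ => ?_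
    rw [Finset.sum_comm]
  have hlast : ∀ i, (inner ℝ (jgg u ((0 : EE n), t) i i)
      (h2N n F q t • ν q t - (2 * Hs n F ν q t / rr n t) • F q t) : ℝ)
      = K i i * h2N n F q t + 2 * Hs n F ν q t / rr n t := by
    intro i
    rw [f.A, if_pos rfl]
    simp only [inner_sub_left, inner_sub_right, real_inner_smul_left, real_inner_smul_right, hνν,
      hFν, hνF, hFF]
    field_simp
    ring
  simp only [hlast, Finset.sum_add_distrib, ← Finset.mul_sum, ← Finset.sum_mul, Finset.sum_const,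
    Finset.card_univ, Fintype.card_fin, nsmul_eq_mul]
  rw [← f.H]
  have hS' := hS
  simp only [← Finset.sum_mul] at hS'
  rw [hS']
  ring

/-- the time derivative of the normal -/
theorem jt_nu (hG2 : StG2) (hG3 : StG3) (hGH : StGH) (hG10 : StG10)
    (hJA : StJA) (hJB : StJB) {n : ℕ} {M : Type} [TopologicalSpace M]
    [ChartedSpace (EE n) M]
    {J : Set ℝ} {F ν : M → ℝ → EE (n + 2)} {q : M} {t : ℝ} {L : EE n →ₗᵢ[ℝ] EE (n + 2)}
    {u : EE n × ℝ → EE (n + 2)} {θ : EE n × ℝ → M} {K : Fin n → Fin n → ℝ}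
    (h : HFl n J F ν) (f : Fx n J F ν q t L u θ K)
    (cF : ContDiffAt ℝ ∞ (fun z : EE n × ℝ => F (θ z) z.2) (0, t))
    (hF : jt (fun z : EE n × ℝ => F (θ z) z.2) (0, t) = HH (n := n) F q t) :
    (inner ℝ (ν q t) (jt (fun z : EE n × ℝ => ν (θ z) z.2) (0, t)) : ℝ) = 0 ∧
    (inner ℝ (F q t) (jt (fun z : EE n × ℝ => ν (θ z) z.2) (0, t)) : ℝ) = -Hs n F ν q t ∧
    ∀ i, (inner ℝ (L (ee i)) (jt (fun z : EE n × ℝ => ν (θ z) z.2) (0, t)) : ℝ)
      = -jg (fun z : EE n × ℝ => Hs n F ν (θ z) z.2) (0, t) i := by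
  have hpt : ν (θ ((0 : EE n), t)) ((0 : EE n), t).2 = ν q t := by rw [f.G.pt]
  have hptF : F (θ ((0 : EE n), t)) ((0 : EE n), t).2 = F q t := by rw [f.G.pt]
  have cm : ContDiffAt ℝ 2 (fun z : EE n × ℝ => ν (θ z) z.2) (0, t) :=
    f.m.of_le (WithTop.coe_le_coe.2 le_top)
  have dm : DifferentiableAt ℝ (fun z : EE n × ℝ => ν (θ z) z.2) (0, t) :=
    cm.differentiableAt (by norm_num)
  have cF2 : ContDiffAt ℝ 2 (fun z : EE n × ℝ => F (θ z) z.2) (0, t) :=
    cF.of_le (WithTop.coe_le_coe.2 le_top)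
  have dF : DifferentiableAt ℝ (fun z : EE n × ℝ => F (θ z) z.2) (0, t) :=
    cF2.differentiableAt (by norm_num)
  have hc : ∀ c : ℝ, jt (fun _ : EE n × ℝ => c) ((0 : EE n), t) = 0 := fun c => by
    unfold jt; simp
  have hG2' := hG2 n (n + 2) (F q t) L u t f.G.sol
  obtain ⟨k1, k2⟩ := hG3 n (n + 2) (F q t) L u t f.G.sol
  obtain ⟨j1, j2, j3, -, -⟩ := hGH n (n + 2) (F q t) L u t f.G.sol _ _ rfl rfl
  obtain ⟨e3, e4⟩ := HH_eq hG10 f
  refine ⟨?_, ?_, fun i => ?_⟩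
  · have e1 : (fun z : EE n × ℝ => (inner ℝ (ν (θ z) z.2) (ν (θ z) z.2) : ℝ))
        =ᶠ[𝓝 ((0 : EE n), t)] fun _ => 1 := by
      filter_upwards [f.eJ] with z hz
      rw [real_inner_self_eq_norm_sq, h.nν _ _ hz]; norm_num
    have e2 := ((hJA n ℝ (0, t)).1 _ _ e1).2.1
    rw [hc, jt_inner _ _ _ dm dm, hpt, real_inner_comm] at e2
    linarith
  · have e1 : (fun z : EE n × ℝ => (inner ℝ (F (θ z) z.2) (ν (θ z) z.2) : ℝ))
        =ᶠ[𝓝 ((0 : EE n), t)] fun _ => 0 := by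
      filter_upwards [f.eJ] with z hz
      exact h.Fν _ _ hz
    have e2 := ((hJA n ℝ (0, t)).1 _ _ e1).2.1
    rw [hc, jt_inner _ _ _ dF dm, hpt, hptF, hF] at e2
    unfold Hs
    linarith
  · have e1 : (fun z : EE n × ℝ => (inner ℝ (L (ee i) + jg u z i) (ν (θ z) z.2) : ℝ))
        =ᶠ[𝓝 ((0 : EE n), t)] fun _ => 0 := by
      filter_upwards [f.eJ, f.G.ts, hG2'] with z hz hz2 hz3
      have : L (ee i) + jg u z i ∈ TS (n := n) F (θ z) z.2 := by
        rw [← hz2, ← hz3.1 i]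
        exact Submodule.subset_span ⟨i, rfl⟩
      exact h.tν _ _ hz _ this
    have e2 := ((hJA n ℝ (0, t)).1 _ _ e1).2.1
    have du : DifferentiableAt ℝ (fun z : EE n × ℝ => jg u z i) ((0 : EE n), t) :=
      (k1 i).1.differentiableAt (by norm_num)
    have du' : DifferentiableAt ℝ (fun z : EE n × ℝ => L (ee i) + jg u z i) ((0 : EE n), t) :=
      du.const_add _
    rw [hc, jt_inner _ _ _ du' dm, hpt, f.G.sol.du0 i, add_zero] at e2
    have e5 : jt (fun z : EE n × ℝ => L (ee i) + jg u z i) ((0 : EE n), t)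
        = et (jggg u (0, t)) i := by
      have e6 : jt (fun z : EE n × ℝ => L (ee i) + jg u z i) ((0 : EE n), t)
          = jt (fun z : EE n × ℝ => jg u z i) ((0 : EE n), t) := by
        unfold jt
        rw [fderiv_const_add]
      rw [e6]
      have e7 := (k1 i).2
      unfold jh at e7
      rw [sub_eq_zero] at e7
      rw [e7]
      rfl
    rw [e5] at e2
    have e8 : jg (fun z : EE n × ℝ => Hs n F ν (θ z) z.2) (0, t) i
        = inner ℝ (et (jggg u (0, t)) i) (ν q t) := by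
      have e9 : (fun z : EE n × ℝ => Hs n F ν (θ z) z.2) =ᶠ[𝓝 ((0 : EE n), t)]
          fun z => (inner ℝ (Hf (F q t) L u z) (ν (θ z) z.2) : ℝ) := by
        filter_upwards [f.G.hH] with z hz
        unfold Hs Hf
        rw [hz.1]
      rw [((hJA n ℝ (0, t)).1 _ _ e9).1 i]
      rw [((hJB n (n + 2) (0, t)).2 _ _ (j1.of_le (WithTop.coe_le_coe.2 le_top)) cm).1 i,
        j3 i, j2, hpt, e3, e4, f.mj i]
      rw [inner_sub_left, sum_inner]
      have z1 : ∑ a, (inner ℝ ((inner ℝ (Hs n F ν q t • ν q t - ((n : ℝ) / rr n t) • F q t)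
          (jgg u ((0 : EE n), t) a i) : ℝ) • L (ee a)) (ν q t) : ℝ) = 0 :=
        Finset.sum_eq_zero fun a _ => by rw [real_inner_smul_left, (f.L0 _).1, mul_zero]
      have z2 : (inner ℝ (Hs n F ν q t • ν q t - ((n : ℝ) / rr n t) • F q t)
          (-∑ j, K i j • L (ee j)) : ℝ) = 0 := by
        rw [inner_neg_right, inner_sum]
        rw [Finset.sum_eq_zero fun l _ => ?_, neg_zero]
        rw [real_inner_smul_right, inner_sub_left, real_inner_smul_left, real_inner_smul_left,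
          real_inner_comm, (f.L0 _).1, real_inner_comm, (f.L0 _).2]
        ring
      rw [z1, z2]
      ring
    rw [e8]
    linarith

theorem hEVF (hGCH : StGCH) (hNUJ : StNUJ) (hSMF : StSMF) (hHTR : StHTR) (hG1 : StG1)
    (hG2 : StG2) (hG3 : StG3) (hG4 : StG4) (hG5 : StG5) (hG10 : StG10) (hGH : StGH)
    (hC1 : Helper35.PI.StC1) (hJA : StJA) (hJB : StJB) (hNR : StNR) : StEVF := by
  intro n hn M _ _ _ J F ν h
  have hI := h.mcf.toIsImmJ
  obtain ⟨sF, sH, -, -, -, -, sFp, -⟩ := hSMF n (n + 2) M J F hI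
  have sHs : SmJ n J (Hs n F ν) := smj_inner sH h.sν
  have scst : ∀ c : EE (n + 2), SmV n J (fun (_ : M) (_ : ℝ) => c) := fun c => contMDiffOn_const
  have sν : ∀ c : EE (n + 2), SmJ n J (fun q t => (inner ℝ (ν q t) c : ℝ)) := fun c =>
    smj_inner h.sν (scst c)
  have sFc : ∀ c : EE (n + 2), SmJ n J (fun q t => (inner ℝ (F q t) c : ℝ)) := fun c =>
    smj_inner sF (scst c)
  refine ⟨sHs, sν, fun q t ht => ?_⟩
  have hr := h.r0 t ht
  have hn0 : (0 : ℝ) < n := by exact_mod_cast hn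
  obtain ⟨L, hL⟩ := hC1 n (n + 2) _ (hI.imm q t ht)
  obtain ⟨u, θ, hG, hφ, hV⟩ := hGCH n (n + 2) M J F h.mcf q t ht L hL
  have hm := (hV ν h.sν).1
  obtain ⟨n1, n2, n3, n4, n5, n6, n7, n8⟩ := hNUJ n M J F ν h q t ht L u θ hG hm _ rfl
  have eJ : ∀ᶠ z in 𝓝 ((0 : EE n), t), z.2 ∈ J :=
    (continuous_snd.continuousAt (x := ((0 : EE n), t))).eventually (hI.op.mem_nhds ht)
  set K : Fin n → Fin n → ℝ := fun i j => inner ℝ (jgg u (0, t) i j) (ν q t) with hK
  have f : Fx n J F ν q t L u θ K := ⟨hG, eJ, hm, n3, n2, n1, n7, n8, n5⟩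
  obtain ⟨e3, e4⟩ := HH_eq hG10 f
  have hνν : (inner ℝ (ν q t) (ν q t) : ℝ) = 1 := by
    rw [real_inner_self_eq_norm_sq, h.nν q t ht]; norm_num
  have hFν : (inner ℝ (F q t) (ν q t) : ℝ) = 0 := h.Fν q t ht
  have hνF : (inner ℝ (ν q t) (F q t) : ℝ) = 0 := by rw [real_inner_comm]; exact hFν
  have hFF : (inner ℝ (F q t) (F q t) : ℝ) = rr n t := by
    rw [real_inner_self_eq_norm_sq, h.sph q t ht]
  have hnH : ‖HH (n := n) F q t‖ ^ 2 = Hs n F ν q t ^ 2 + n ^ 2 / rr n t := by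
    rw [e4, ← real_inner_self_eq_norm_sq]
    simp only [inner_sub_left, inner_sub_right, real_inner_smul_left, real_inner_smul_right, hνν,
      hFν, hνF, hFF]
    field_simp
    ring
  have hth : thN n F q t = h2N n F q t - Hs n F ν q t ^ 2 / n := by
    unfold thN h2N
    rw [hnH]
    field_simp
    ring
  have hexp := frame_expand L (ν q t) (F q t) (rr n t) hr (h.nν q t ht) (h.sph q t ht) hFν n1
  -- derivatives of `F`
  have hjp : ∀ p : EE (n + 2),
      (∀ k, jg (fun z : EE n × ℝ => ‖F (θ z) z.2 - p‖ ^ 2) (0, t) k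
        = 2 * inner ℝ (F q t - p) (L (ee k))) ∧
      jh (fun z : EE n × ℝ => ‖F (θ z) z.2 - p‖ ^ 2) (0, t) = -2 * n := by
    intro p
    have e1 : (fun z : EE n × ℝ => ‖F (θ z) z.2 - p‖ ^ 2) =ᶠ[𝓝 ((0 : EE n), t)]
        fun z => ‖grf (F q t) L u z.2 z.1 - (fun _ : ℝ => p) z.2‖ ^ 2 := by
      filter_upwards [hG.eq] with z hz
      rw [hz]
    obtain ⟨-, g2, g3⟩ := (hG10 n (n + 2) (F q t) L u t hG.sol).2 (fun _ => p) 0
      contDiffAt_const (hasDerivAt_const t p)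
    have e2 := (hJA n ℝ (0, t)).1 _ _ e1
    refine ⟨fun k => ?_, ?_⟩
    · rw [e2.1 k]; exact g2 k
    · rw [e2.2.2.2, g3, inner_zero_right]; ring
  have hFp : ∀ p : EE (n + 2), htN n F (fun q t => ‖F q t - p‖ ^ 2) q t = -2 * n := fun p => by
    rw [← (hφ _ (sFp p)).2.2.1]
    exact (hjp p).2
  have hFpg : ∀ p : EE (n + 2), gdM n F t (fun q => ‖F q t - p‖ ^ 2) q
      = ∑ k, (2 * (inner ℝ (F q t - p) (L (ee k)) : ℝ)) • L (ee k) := fun p => by
    rw [(hφ _ (sFp p)).2.2.2]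
    exact Finset.sum_congr rfl fun k _ => by rw [(hjp p).1 k]
  have hpol : ∀ c : EE (n + 2), (fun (q : M) (t : ℝ) => (inner ℝ (F q t) c : ℝ))
      = fun q t => (1 / 4 : ℝ) * ‖F q t - -c‖ ^ 2 + (-1 / 4 : ℝ) * ‖F q t - c‖ ^ 2 := by
    intro c
    funext q t
    rw [← real_inner_self_eq_norm_sq, ← real_inner_self_eq_norm_sq]
    simp only [inner_sub_left, inner_sub_right, inner_neg_left, inner_neg_right]
    rw [real_inner_comm c (F q t)]
    ring
  have hHTc : ∀ c : EE (n + 2), htN n F (fun q t => (inner ℝ (F q t) c : ℝ)) q t = 0 := fun c => by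
    rw [hpol c, (((hHTR n (n + 2) M J F hI _ _ (sFp (-c)) (sFp c)).2.1 (1 / 4) (-1 / 4)).2
      q t ht).2, hFp, hFp]
    ring
  have hgc : ∀ c : EE (n + 2), gdM n F t (fun q => (inner ℝ (F q t) c : ℝ)) q
      = ∑ k, (inner ℝ (L (ee k)) c : ℝ) • L (ee k) := fun c => by
    have e1 : (fun q : M => (inner ℝ (F q t) c : ℝ))
        = fun q => (1 / 4 : ℝ) * ‖F q t - -c‖ ^ 2 + (-1 / 4 : ℝ) * ‖F q t - c‖ ^ 2 := by
      funext q
      exact congrFun (congrFun (hpol c) q) t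
    rw [e1, (((hHTR n (n + 2) M J F hI _ _ (sFp (-c)) (sFp c)).2.1 (1 / 4) (-1 / 4)).2
      q t ht).1, hFpg, hFpg, Finset.smul_sum, Finset.smul_sum, ← Finset.sum_add_distrib]
    refine Finset.sum_congr rfl fun k _ => ?_
    rw [smul_smul, smul_smul, ← add_smul]
    congr 1
    simp only [inner_sub_left, inner_neg_left]
    rw [real_inner_comm c (L (ee k))]
    ring
  obtain ⟨cF, hjF⟩ := hV F sF
  have hjF' : jt (fun z : EE n × ℝ => F (θ z) z.2) (0, t) = HH (n := n) F q t := by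
    rw [hjF]; exact (h.mcf.flow q t ht).deriv
  obtain ⟨d1, d2, d3⟩ := jt_nu hG2 hG3 hGH hG10 hJA hJB h f cF hjF'
  refine ⟨e4, ?_, hth, ?_, ?_, hFp, fun c => ⟨hHTc c, ?_, ?_, ?_⟩⟩
  · unfold eN
    rw [hnH]; ring
  · rw [hth, n6, n5]
    have c1 : (∑ i, K i i) ^ 2 ≤ n * ∑ i, K i i ^ 2 := by
      have := sq_sum_le_card_mul_sum_sq (s := (Finset.univ : Finset (Fin n))) (f := fun i => K i i)
      simpa using this
    have c2 : ∑ i, K i i ^ 2 ≤ ∑ i, ∑ j, K i j ^ 2 :=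
      Finset.sum_le_sum fun i _ =>
        Finset.single_le_sum (f := fun j => K i j ^ 2) (fun j _ => sq_nonneg _) (Finset.mem_univ i)
    rw [sub_nonneg, div_le_iff₀ hn0]
    nlinarith
  · rw [← (hφ _ sHs).2.2.1]
    exact jh_Hs hG1 hG2 hG3 hG4 hG5 hJA hJB hNR h ht f
  · rw [← (hφ _ (sν c)).2.2.1]
    have cc : ContDiffAt ℝ 2 (fun _ : EE n × ℝ => c) ((0 : EE n), t) := contDiffAt_const
    rw [((hJB n (n + 2) (0, t)).2 _ _ (hm.of_le (WithTop.coe_le_coe.2 le_top)) cc).2, n8,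
      ((hJA n (EE (n + 2)) (0, t)).2.1 c).2]
    simp only [((hJA n (EE (n + 2)) (0, t)).2.1 c).1, inner_zero_right, Finset.sum_const_zero,
      inner_sub_left, real_inner_smul_left]
    ring
  · rw [← (hφ _ (sν c)).2.1]
    have dm : DifferentiableAt ℝ (fun z : EE n × ℝ => ν (θ z) z.2) (0, t) :=
      hm.differentiableAt (by simp)
    rw [jt_inner _ _ _ dm (differentiableAt_const c)]
    have hc : jt (fun _ : EE n × ℝ => c) ((0 : EE n), t) = 0 := by
      unfold jt; simp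
    rw [hc, inner_zero_right, add_zero, (hφ _ sHs).2.2.2]
    conv_lhs => rw [hexp (jt (fun z : EE n × ℝ => ν (θ z) z.2) (0, t))]
    rw [d1, d2]
    simp only [d3, inner_add_left, sum_inner, real_inner_smul_left, neg_mul,
      Finset.sum_neg_distrib, zero_mul]
    ring
  · rw [hgc c]
    exact hexp c

end Helper8.HSF
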