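import Pool.Agent.Helper35.HSF.StH

/-!
Project HSF, module KIN: half great circles meet the hypersurface at most once.
-/

set_option autoImplicit false

namespace Helper8.HSF

open Helper35.HSF Helper35.MS Helper35.PI Helper35.PI2 Helper32.CL
open scoped ContDiff Manifold Topology ENNReal BigOperators
open MeasureTheory Set Filter

theorem chart_smooth {n N : ℕ} {M : Type} [TopologicalSpace M] [ChartedSpace (EE n) M]
    [IsManifold (𝓡 n) ∞ M] {g : M → EE N} (hg : ContMDiff (𝓡 n) 𝓘(ℝ, EE N) ∞ g) (p : M)
    {y : EE n} (hy : y ∈ (chartAt (EE n) p).target) :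
    ContDiffAt ℝ ∞ (fun y => g ((chartAt (EE n) p).symm y)) y := by
  have h1 : ContMDiffOn (𝓡 n) 𝓘(ℝ, EE N) ∞ (fun y => g ((chartAt (EE n) p).symm y))
      (chartAt (EE n) p).target :=
    hg.comp_contMDiffOn contMDiffOn_chart_symm
  exact (contMDiffOn_iff_contDiffOn.1 h1).contDiffAt
    ((chartAt (EE n) p).open_target.mem_nhds hy)

theorem hKIN (hASP : StASP) : StKIN := by
  intro n hn M _ _ _ _ _ _ g η h e he x y a b ha hb hxy
  obtain ⟨hA1, hA2⟩ := hASP n hn M g η h.sg h.sη h.ng h.nη h.gη h.tη h.df
  rcases ha.lt_or_eq with ha | ha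
  · exfalso
    have h1 := h.gη x
    rw [hxy, inner_add_left, real_inner_smul_left, real_inner_smul_left] at h1
    have h2 := mul_pos ha (he x)
    have h3 := mul_nonneg hb.le (hA1 x y)
    linarith
  · rw [← ha, zero_smul, zero_add] at hxy
    have hb1 : b = 1 := by
      have h1 := h.ng x
      rw [hxy, norm_smul, h.ng y, mul_one, Real.norm_eq_abs, abs_of_pos hb] at h1
      exact h1
    rw [hb1, one_smul] at hxy
    apply hA2 x y hxy
    -- chart at `y`
    set G : EE n → EE (n + 2) := fun w => g ((chartAt (EE n) y).symm w) with hG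
    set Et : EE n → EE (n + 2) := fun w => η ((chartAt (EE n) y).symm w) with hE
    set w₀ : EE n := chartAt (EE n) y y with hw₀
    have hwt : w₀ ∈ (chartAt (EE n) y).target := mem_chart_target (EE n) y
    have hsy : (chartAt (EE n) y).symm w₀ = y :=
      (chartAt (EE n) y).left_inv (mem_chart_source (EE n) y)
    have hGw : G w₀ = g y := by simp only [hG]; rw [hsy]
    have hEw : Et w₀ = η y := by simp only [hE]; rw [hsy]
    have cG : ∀ w ∈ (chartAt (EE n) y).target, ContDiffAt ℝ ∞ G w := fun w hw =>
      chart_smooth h.sg y hw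
    have cE : ContDiffAt ℝ ∞ Et w₀ := chart_smooth h.sη y hwt
    have dG : ∀ w ∈ (chartAt (EE n) y).target, DifferentiableAt ℝ G w := fun w hw =>
      (cG w hw).differentiableAt (by simp)
    have dE : DifferentiableAt ℝ Et w₀ := cE.differentiableAt (by simp)
    have hDg : ∀ v, (inner ℝ (fderiv ℝ G w₀ v) (g y) : ℝ) = 0 := by
      intro v
      have h1 : (fun w => (inner ℝ (G w) (G w) : ℝ)) = fun _ => 1 := by
        funext w
        rw [real_inner_self_eq_norm_sq, hG]
        simp only [h.ng]
        norm_num
      have h2 := fderiv_inner_apply ℝ (dG w₀ hwt) (dG w₀ hwt) v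
      rw [h1, hGw, real_inner_comm] at h2
      simp at h2
      linarith
    have hDη : ∀ v, (inner ℝ (fderiv ℝ G w₀ v) (η y) : ℝ) = 0 := by
      intro v
      have := h.tη y w₀ hwt v
      rw [hsy] at this
      exact this
    -- minimum
    have hmin : ∀ (z : M), (inner ℝ (g y) (η z) : ℝ) = 0 → ∀ v,
        (inner ℝ (fderiv ℝ G w₀ v) (η z) : ℝ) = 0 := by
      intro z hz v
      have h1 : IsLocalMin (fun w => (inner ℝ (G w) (η z) : ℝ)) w₀ := by
        refine Filter.Eventually.of_forall fun w => ?_
        simp only [hGw, hz]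
        exact hA1 z _
      have h2 := h1.fderiv_eq_zero
      have h3 := fderiv_inner_apply ℝ (dG w₀ hwt) (differentiableAt_const (η z)) v
      rw [h2] at h3
      simp at h3
      linarith
    have hgx : (inner ℝ (g y) (η x) : ℝ) = 0 := by rw [← hxy]; exact h.gη x
    have hinj : Function.Injective (fderiv ℝ G w₀) := by
      rw [injective_iff_map_eq_zero]
      intro v hv
      by_contra hv0
      have := h.df y w₀ hwt v hv0
      change (inner ℝ (fderiv ℝ G w₀ v) _ : ℝ) < 0 at this
      rw [hv, inner_zero_left] at this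
      exact lt_irrefl _ this
    have hgg : (inner ℝ (g y) (g y) : ℝ) = 1 := by
      rw [real_inner_self_eq_norm_sq, h.ng]; norm_num
    have hηη : ∀ z, (inner ℝ (η z) (η z) : ℝ) = 1 := fun z => by
      rw [real_inner_self_eq_norm_sq, h.nη]; norm_num
    have hηg : (inner ℝ (η y) (g y) : ℝ) = 0 := by rw [real_inner_comm]; exact h.gη y
    -- the frame
    let T : EE n × ℝ × ℝ →ₗ[ℝ] EE (n + 2) :=
      (fderiv ℝ G w₀).toLinearMap.comp (LinearMap.fst ℝ (EE n) (ℝ × ℝ))
        + (LinearMap.toSpanSingleton ℝ (EE (n + 2)) (g y)).comp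
          ((LinearMap.fst ℝ ℝ ℝ).comp (LinearMap.snd ℝ (EE n) (ℝ × ℝ)))
        + (LinearMap.toSpanSingleton ℝ (EE (n + 2)) (η y)).comp
          ((LinearMap.snd ℝ ℝ ℝ).comp (LinearMap.snd ℝ (EE n) (ℝ × ℝ)))
    have hT : ∀ p, T p = fderiv ℝ G w₀ p.1 + p.2.1 • g y + p.2.2 • η y := fun p => by
      simp [T]
    have hTi : Function.Injective T := by
      rw [injective_iff_map_eq_zero]
      intro p hp
      rw [hT] at hp
      have e1 : p.2.1 = 0 := by
        have h1 := congrArg (fun u => (inner ℝ u (g y) : ℝ)) hp
        simp only [inner_add_left, real_inner_smul_left, hDg, hgg, hηg, inner_zero_left] at h1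
        linarith
      have e2 : p.2.2 = 0 := by
        have h1 := congrArg (fun u => (inner ℝ u (η y) : ℝ)) hp
        simp only [inner_add_left, real_inner_smul_left, hDη, hηη, h.gη, inner_zero_left] at h1
        linarith
      rw [e1, e2, zero_smul, zero_smul, add_zero, add_zero] at hp
      have e3 : p.1 = 0 := hinj (by rw [hp, map_zero])
      exact Prod.ext e3 (Prod.ext e1 e2)
    have hTs : Function.Surjective T := by
      refine (LinearMap.injective_iff_surjective_of_finrank_eq_finrank ?_).1 hTi
      simp
    set c : ℝ := inner ℝ (η x) (η y) with hc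
    have hu : η x - c • η y = 0 := by
      obtain ⟨p, hp⟩ := hTs (η x - c • η y)
      rw [hT] at hp
      have h1 : (inner ℝ (η x - c • η y) (η x - c • η y) : ℝ) = 0 := by
        have q1 : (inner ℝ (fderiv ℝ G w₀ p.1) (η x - c • η y) : ℝ) = 0 := by
          rw [inner_sub_right, real_inner_smul_right, hmin x hgx, hDη]; ring
        have q2 : (inner ℝ (g y) (η x - c • η y) : ℝ) = 0 := by
          rw [inner_sub_right, real_inner_smul_right, hgx, h.gη]; ring
        have q3 : (inner ℝ (η y) (η x - c • η y) : ℝ) = 0 := by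
          rw [inner_sub_right, real_inner_smul_right, hηη, real_inner_comm]; ring
        calc (inner ℝ (η x - c • η y) (η x - c • η y) : ℝ)
            = inner ℝ (fderiv ℝ G w₀ p.1 + p.2.1 • g y + p.2.2 • η y) (η x - c • η y) := by
              rw [hp]
          _ = 0 := by
              rw [inner_add_left, inner_add_left, real_inner_smul_left, real_inner_smul_left,
                q1, q2, q3]
              ring
      exact inner_self_eq_zero.1 h1
    have hxc : η x = c • η y := sub_eq_zero.1 hu
    have hc1 : c ^ 2 = 1 := by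
      have h1 := hηη x
      rw [hxc, real_inner_smul_left, real_inner_smul_right, hηη] at h1
      linarith
    have hc2 : c = 1 ∨ c = -1 := by
      have h1 : (c - 1) * (c + 1) = 0 := by linear_combination hc1
      rcases mul_eq_zero.1 h1 with h1 | h1
      · left; linarith
      · right; linarith
    rcases hc2 with hc2 | hc2
    · rw [hxc, hc2, one_smul]
    · exfalso
      have hz : ∀ z, (inner ℝ (g z) (η y) : ℝ) = 0 := by
        intro z
        have h1 := hA1 x z
        have h2 := hA1 y z
        rw [hxc, hc2, real_inner_smul_right] at h1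
        linarith
      have hd : ∀ w ∈ (chartAt (EE n) y).target, ∀ v,
          (inner ℝ (fderiv ℝ G w v) (η y) : ℝ) = 0 := by
        intro w hw v
        have h1 : (fun w => (inner ℝ (G w) (η y) : ℝ)) = fun _ => 0 := by
          funext w; exact hz _
        have h3 := fderiv_inner_apply ℝ (dG w hw) (differentiableAt_const (η y)) v
        rw [h1] at h3
        simp at h3
        linarith
      obtain ⟨v, hv⟩ : ∃ v : EE n, v ≠ 0 := by
        have : Nontrivial (EE n) := by
          have : Nonempty (Fin n) := ⟨⟨0, by omega⟩⟩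
          infer_instance
        exact exists_ne 0
      have hneg := h.df y w₀ hwt v hv
      change (inner ℝ (fderiv ℝ G w₀ v) (fderiv ℝ Et w₀ v) : ℝ) < 0 at hneg
      have dA : DifferentiableAt ℝ (fun w => fderiv ℝ G w v) w₀ := by
        have h1 : ContDiffAt ℝ 1 (fderiv ℝ G) w₀ :=
          (cG w₀ hwt).fderiv_right (m := 1) (by norm_cast)
        exact (h1.differentiableAt (by norm_num)).clm_apply (differentiableAt_const v)
      have dB : DifferentiableAt ℝ (fun w => Et w - η y) w₀ := dE.sub_const _
      have h5 : (fun w => (inner ℝ (fderiv ℝ G w v) (Et w - η y) : ℝ)) =ᶠ[𝓝 w₀] fun _ => 0 := by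
        filter_upwards [(chartAt (EE n) y).open_target.mem_nhds hwt] with w hw
        rw [inner_sub_right, hd w hw v]
        have := h.tη y w hw v
        change (inner ℝ (fderiv ℝ G w v) (Et w) : ℝ) = 0 at this
        rw [this]; ring
      have h6 := fderiv_inner_apply ℝ dA dB v
      rw [h5.fderiv_eq, hEw, sub_self, inner_zero_right, add_zero, fderiv_sub_const] at h6
      simp at h6
      linarith

end Helper8.HSF
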